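import Pool.Agent.H84.Unc.Defs

/-!
# Integration by parts, Green's formula and Bochner's formula on the box
-/

set_option autoImplicit false

open MeasureTheory Set

namespace Pool.Agent.H84.Unc

open Pool.Agent.H84

variable {n : ℕ}

/-! ### Calculus of partial derivatives -/

theorem pd_contDiff {f : (Fin n → ℝ) → ℝ} {m k : ℕ} (hf : ContDiff ℝ k f) (hk : m + 1 ≤ k)
    (i : Fin n) : ContDiff ℝ m (pd i f) := by
  have h1 : ContDiff ℝ m (fderiv ℝ f) := hf.fderiv_right (by exact_mod_cast hk)
  exact h1.clm_apply contDiff_const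

theorem pd_mul {f g : (Fin n → ℝ) → ℝ} (hf : ContDiff ℝ 1 f) (hg : ContDiff ℝ 1 g) (i : Fin n)
    (x : Fin n → ℝ) : pd i (fun y => f y * g y) x = pd i f x * g x + f x * pd i g x := by
  have h1 : HasFDerivAt f (fderiv ℝ f x) x := (hf.differentiable (by simp) x).hasFDerivAt
  have h2 : HasFDerivAt g (fderiv ℝ g x) x := (hg.differentiable (by simp) x).hasFDerivAt
  have h3 := (h1.mul h2).fderiv
  unfold pd
  rw [show (fun y => f y * g y) = f * g from rfl, h3]
  simp only [add_apply, smul_apply, smul_eq_mul]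
  ring

theorem pd_sub {f g : (Fin n → ℝ) → ℝ} (hf : ContDiff ℝ 1 f) (hg : ContDiff ℝ 1 g) (i : Fin n)
    (x : Fin n → ℝ) : pd i (fun y => f y - g y) x = pd i f x - pd i g x := by
  have h1 : HasFDerivAt f (fderiv ℝ f x) x := (hf.differentiable (by simp) x).hasFDerivAt
  have h2 : HasFDerivAt g (fderiv ℝ g x) x := (hg.differentiable (by simp) x).hasFDerivAt
  have h3 := (h1.sub h2).fderiv
  unfold pd
  rw [show (fun y => f y - g y) = f - g from rfl, h3]
  simp

theorem pd_sum {ι : Type*} (s : Finset ι) {f : ι → (Fin n → ℝ) → ℝ}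
    (hf : ∀ a ∈ s, ContDiff ℝ 1 (f a)) (i : Fin n)
    (x : Fin n → ℝ) : pd i (fun y => ∑ a ∈ s, f a y) x = ∑ a ∈ s, pd i (f a) x := by
  have h1 : ∀ a ∈ s, HasFDerivAt (f a) (fderiv ℝ (f a) x) x :=
    fun a ha => ((hf a ha).differentiable (by simp) x).hasFDerivAt
  have h3 := (HasFDerivAt.fun_sum h1).fderiv
  unfold pd
  rw [h3]
  simp

theorem pd_exp_neg {U : (Fin n → ℝ) → ℝ} (hU : ContDiff ℝ 1 U) (i : Fin n)
    (x : Fin n → ℝ) : pd i (fun y => Real.exp (-U y)) x = -(pd i U x * Real.exp (-U x)) := by
  have h1 : HasFDerivAt U (fderiv ℝ U x) x := (hU.differentiable (by simp) x).hasFDerivAt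
  have h3 := (h1.neg.exp).fderiv
  unfold pd
  rw [show (fun y => Real.exp (-U y)) = (fun y => Real.exp ((-U) y)) from rfl, h3]
  simp only [smul_apply, neg_apply, smul_eq_mul,
    Pi.neg_apply]
  ring

theorem pd_comm {f : (Fin n → ℝ) → ℝ} (hf : ContDiff ℝ 2 f) (i j : Fin n) :
    pd i (pd j f) = pd j (pd i f) := by
  funext x
  have hd : DifferentiableAt ℝ (fderiv ℝ f) x :=
    (hf.fderiv_right (m := 1) (by norm_num)).differentiable (by simp) x
  have key : ∀ a b : Fin n, pd a (pd b f) x =
      fderiv ℝ (fderiv ℝ f) x (Pi.single a 1) (Pi.single b 1) := by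
    intro a b
    unfold pd
    have := hd.hasFDerivAt.clm_apply (hasFDerivAt_const (Pi.single b (1:ℝ)) x)
    rw [this.fderiv]
    simp
  rw [key, key]
  have hs : IsSymmSndFDerivAt ℝ f x :=
    hf.contDiffAt.isSymmSndFDerivAt (by simp)
  exact hs _ _

theorem exp_neg_contDiff {U : (Fin n → ℝ) → ℝ} {m : ℕ} (hU : ContDiff ℝ m U) :
    ContDiff ℝ m (fun y => Real.exp (-U y)) := hU.neg.exp

theorem QQ_compact (n : ℕ) : IsCompact (QQ n) := isCompact_Icc

theorem QQ_integrable {f : (Fin n → ℝ) → ℝ} (hf : Continuous f) : IntegrableOn f (QQ n) :=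
  hf.continuousOn.integrableOn_compact (QQ_compact n)

theorem pd_continuous {f : (Fin n → ℝ) → ℝ} (hf : ContDiff ℝ 1 f) (i : Fin n) :
    Continuous (pd i f) := (pd_contDiff (m := 0) (k := 1) (by exact_mod_cast hf) le_rfl i).continuous

/-! ### Integration by parts -/

theorem box_ibp {F : (Fin n → ℝ) → ℝ} (hF : ContDiff ℝ 1 F) (j : Fin n)
    (h0 : ∀ x ∈ QQ n, x j = 0 → F x = 0) (h1 : ∀ x ∈ QQ n, x j = Real.pi → F x = 0) :
    ∫ x in QQ n, pd j F x = 0 := by
  cases n with
  | zero => exact j.elim0
  | succ n =>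
    have hFd : ∀ x, HasFDerivAt F (fderiv ℝ F x) x :=
      fun x => (hF.differentiable (by simp) x).hasFDerivAt
    have hsum : ∀ x, ∑ i, (if i = j then fderiv ℝ F x else 0) (Pi.single i 1) = pd j F x := by
      intro x
      rw [Finset.sum_eq_single j]
      · simp [pd]
      · intro b _ hb
        simp [hb]
      · intro h
        exact absurd (Finset.mem_univ j) h
    have hle : (0 : Fin (n+1) → ℝ) ≤ fun _ => Real.pi := fun _ => Real.pi_pos.le
    have key := integral_divergence_of_hasFDerivAt_off_countable' (0 : Fin (n+1) → ℝ)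
      (fun _ => Real.pi) hle (fun i => if i = j then F else 0)
      (fun i x => if i = j then fderiv ℝ F x else 0) ∅ Set.countable_empty
      (by
        intro i
        by_cases hij : i = j
        · simp only [hij, if_true]
          exact hF.continuous.continuousOn
        · simp only [hij, if_false]
          exact continuousOn_const)
      (by
        intro x _ i
        by_cases hij : i = j
        · simp only [hij, if_true]
          exact hFd x
        · simp only [hij, if_false]
          exact hasFDerivAt_const 0 x)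
      (by
        simp only [hsum]
        exact QQ_integrable (pd_continuous hF j))
    simp only [hsum] at key
    have hQ : QQ (n+1) = Set.Icc 0 (fun _ => Real.pi) := rfl
    rw [hQ, key]
    apply Finset.sum_eq_zero
    intro i _
    by_cases hij : i = j
    · subst hij
      simp only [if_true]
      have e1 : ∀ x ∈ Set.Icc ((0 : Fin (n+1) → ℝ) ∘ i.succAbove)
          ((fun _ => Real.pi) ∘ i.succAbove), F (i.insertNth Real.pi x) = 0 := by
        intro x hx
        apply h1
        · constructor
          · intro k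
            rcases eq_or_ne k i with hk | hk
            · subst hk
              simp [Real.pi_pos.le]
            · obtain ⟨l, rfl⟩ := Fin.exists_succAbove_eq hk
              simpa using hx.1 l
          · intro k
            rcases eq_or_ne k i with hk | hk
            · subst hk
              simp
            · obtain ⟨l, rfl⟩ := Fin.exists_succAbove_eq hk
              simpa using hx.2 l
        · simp
      have e2 : ∀ x ∈ Set.Icc ((0 : Fin (n+1) → ℝ) ∘ i.succAbove)
          ((fun _ => Real.pi) ∘ i.succAbove), F (i.insertNth 0 x) = 0 := by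
        intro x hx
        apply h0
        · constructor
          · intro k
            rcases eq_or_ne k i with hk | hk
            · subst hk
              simp
            · obtain ⟨l, rfl⟩ := Fin.exists_succAbove_eq hk
              simpa using hx.1 l
          · intro k
            rcases eq_or_ne k i with hk | hk
            · subst hk
              simp [Real.pi_pos.le]
            · obtain ⟨l, rfl⟩ := Fin.exists_succAbove_eq hk
              simpa using hx.2 l
        · simp
      rw [setIntegral_congr_fun measurableSet_Icc e1]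
      have e2' : ∀ x ∈ Set.Icc ((0 : Fin (n+1) → ℝ) ∘ i.succAbove)
          ((fun _ => Real.pi) ∘ i.succAbove), F (i.insertNth ((0 : Fin (n+1) → ℝ) i) x) = 0 := by
        intro x hx
        simpa using e2 x hx
      rw [setIntegral_congr_fun measurableSet_Icc e2']
      simp
    · simp [hij]

theorem box_green {U u f : (Fin n → ℝ) → ℝ} (hU : ContDiff ℝ 1 U) (hu : ContDiff ℝ 2 u)
    (hN : Neum u) (hf : ContDiff ℝ 1 f) :
    ∫ x in QQ n, LL U u x * f x * Real.exp (-U x) =
      - ∫ x in QQ n, (∑ i, pd i u x * pd i f x) * Real.exp (-U x) := by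
  have hw : ContDiff ℝ 1 (fun y => Real.exp (-U y)) := hU.neg.exp
  have hu1 : ∀ i, ContDiff ℝ 1 (pd i u) := fun i =>
    pd_contDiff (m := 1) (k := 2) (by exact_mod_cast hu) le_rfl i
  have hcu : ∀ i, Continuous (pd i u) := fun i => (hu1 i).continuous
  have hcuu : ∀ i, Continuous (pd i (pd i u)) := fun i => pd_continuous (hu1 i) i
  have hcU : ∀ i, Continuous (pd i U) := fun i => pd_continuous hU i
  have hcf : ∀ i, Continuous (pd i f) := fun i => pd_continuous hf i
  have hF : ∀ i, ContDiff ℝ 1 (fun x => f x * pd i u x * Real.exp (-U x)) := fun i =>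
    (hf.mul (hu1 i)).mul hw
  have hpd : ∀ i x, pd i (fun x => f x * pd i u x * Real.exp (-U x)) x =
      (pd i u x * pd i f x) * Real.exp (-U x) +
      (pd i (pd i u) x - pd i U x * pd i u x) * f x * Real.exp (-U x) := by
    intro i x
    rw [pd_mul (hf.mul (hu1 i)) hw, pd_mul hf (hu1 i), pd_exp_neg hU]
    ring
  have hz : ∀ i, ∫ x in QQ n, pd i (fun x => f x * pd i u x * Real.exp (-U x)) x = 0 := by
    intro i
    apply box_ibp (hF i)
    · intro x hx h0
      rw [(hN i x hx (Or.inl h0)).1]
      ring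
    · intro x hx h0
      rw [(hN i x hx (Or.inr h0)).1]
      ring
  have hs : ∑ i, ∫ x in QQ n, pd i (fun x => f x * pd i u x * Real.exp (-U x)) x = 0 :=
    Finset.sum_eq_zero (fun i _ => hz i)
  rw [← integral_finsetSum _ (fun i _ => QQ_integrable (pd_continuous (hF i) i))] at hs
  have hcL : Continuous (LL U u) := by
    unfold LL
    fun_prop
  have hcw : Continuous (fun y => Real.exp (-U y)) := hw.continuous
  rw [eq_neg_iff_add_eq_zero, ← integral_add, ← hs]
  · congr 1
    funext x
    simp only [hpd]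
    rw [Finset.sum_add_distrib, ← Finset.sum_mul, ← Finset.sum_mul, ← Finset.sum_mul]
    unfold LL
    rw [Finset.sum_sub_distrib]
    ring
  · apply QQ_integrable
    exact (hcL.mul hf.continuous).mul hcw
  · apply QQ_integrable
    fun_prop

theorem box_bochner {U u : (Fin n → ℝ) → ℝ} (hU : ContDiff ℝ 2 U) (hu : ContDiff ℝ 3 u)
    (hN : Neum u) :
    ∫ x in QQ n, (LL U u x) ^ 2 * Real.exp (-U x) =
      (∫ x in QQ n, (∑ i, gsq (pd i u) x) * Real.exp (-U x)) +
      ∫ x in QQ n, (∑ i, ∑ j, pd i (pd j U) x * pd i u x * pd j u x) * Real.exp (-U x) := by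
  have hU1 : ContDiff ℝ 1 U := hU.of_le (by norm_num)
  have hu2 : ContDiff ℝ 2 u := hu.of_le (by norm_num)
  have hw : ContDiff ℝ 1 (fun y => Real.exp (-U y)) := hU1.neg.exp
  have hcw : Continuous (fun y => Real.exp (-U y)) := hw.continuous
  have hpu : ∀ i, ContDiff ℝ 2 (pd i u) := fun i =>
    pd_contDiff (m := 2) (k := 3) (by exact_mod_cast hu) le_rfl i
  have hpu1 : ∀ i, ContDiff ℝ 1 (pd i u) := fun i => (hpu i).of_le (by norm_num)
  have hppu : ∀ i j, ContDiff ℝ 1 (pd i (pd j u)) := fun i j =>
    pd_contDiff (m := 1) (k := 2) (by exact_mod_cast hpu j) le_rfl i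
  have hpU : ∀ i, ContDiff ℝ 1 (pd i U) := fun i =>
    pd_contDiff (m := 1) (k := 2) (by exact_mod_cast hU) le_rfl i
  have hLL : ContDiff ℝ 1 (LL U u) := by
    unfold LL
    apply ContDiff.sub
    · exact ContDiff.sum (fun i _ => hppu i i)
    · exact ContDiff.sum (fun i _ => (hpU i).mul (hpu1 i))
  -- derivative of `LL U u`
  have hdL : ∀ i x, pd i (LL U u) x = ∑ j, (pd j (pd j (pd i u)) x - pd j U x * pd j (pd i u) x)
      - ∑ j, pd i (pd j U) x * pd j u x := by
    intro i x
    have e1 : LL U u = fun y => (∑ j, pd j (pd j u) y) - ∑ j, pd j U y * pd j u y := rfl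
    rw [e1, pd_sub (ContDiff.sum (fun j _ => hppu j j))
      (ContDiff.sum (fun j _ => (hpU j).mul (hpu1 j))), pd_sum _ (fun j _ => hppu j j),
      pd_sum _ (fun j _ => (hpU j).mul (hpu1 j))]
    have e2 : ∀ j, pd i (pd j (pd j u)) x = pd j (pd j (pd i u)) x := by
      intro j
      rw [pd_comm (hpu j) i j, pd_comm hu2 i j]
    have e3 : ∀ j, pd i (fun y => pd j U y * pd j u y) x =
        pd i (pd j U) x * pd j u x + pd j U x * pd j (pd i u) x := by
      intro j
      rw [pd_mul (hpU j) (hpu1 j), pd_comm hu2 i j]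
    rw [Finset.sum_congr rfl (fun j _ => e2 j), Finset.sum_congr rfl (fun j _ => e3 j),
      Finset.sum_add_distrib, Finset.sum_sub_distrib]
    ring
  -- integration by parts for each pair
  have hF : ∀ i j, ContDiff ℝ 1 (fun x => pd i u x * pd j (pd i u) x * Real.exp (-U x)) :=
    fun i j => ((hpu1 i).mul (hppu j i)).mul hw
  have hpd : ∀ i j x, pd j (fun x => pd i u x * pd j (pd i u) x * Real.exp (-U x)) x =
      (pd j (pd i u) x) ^ 2 * Real.exp (-U x) +
      pd i u x * (pd j (pd j (pd i u)) x - pd j U x * pd j (pd i u) x) * Real.exp (-U x) := by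
    intro i j x
    rw [pd_mul ((hpu1 i).mul (hppu j i)) hw, pd_mul (hpu1 i) (hppu j i), pd_exp_neg hU1]
    ring
  have hz : ∀ i j, ∫ x in QQ n, pd j (fun x => pd i u x * pd j (pd i u) x * Real.exp (-U x)) x
      = 0 := by
    intro i j
    have hzero : ∀ x ∈ QQ n, (x j = 0 ∨ x j = Real.pi) →
        pd i u x * pd j (pd i u) x * Real.exp (-U x) = 0 := by
      intro x hx hxj
      obtain ⟨ha, hb⟩ := hN j x hx hxj
      by_cases hij : i = j
      · subst hij
        rw [ha]
        ring
      · rw [hb i hij]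
        ring
    exact box_ibp (hF i j) j (fun x hx h => hzero x hx (Or.inl h))
      (fun x hx h => hzero x hx (Or.inr h))
  have hs : ∑ i, ∑ j, ∫ x in QQ n,
      pd j (fun x => pd i u x * pd j (pd i u) x * Real.exp (-U x)) x = 0 :=
    Finset.sum_eq_zero (fun i _ => Finset.sum_eq_zero (fun j _ => hz i j))
  have hs2 : ∫ x in QQ n, ∑ i, ∑ j,
      pd j (fun x => pd i u x * pd j (pd i u) x * Real.exp (-U x)) x = 0 := by
    rw [integral_finsetSum _ (fun i _ => ?_), ← hs]
    · apply Finset.sum_congr rfl
      intro i _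
      rw [integral_finsetSum _ (fun j _ => QQ_integrable (pd_continuous (hF i j) j))]
    · exact integrable_finsetSum _ (fun j _ => QQ_integrable (pd_continuous (hF i j) j))
  -- continuity
  have c1 : ∀ i, Continuous (pd i u) := fun i => (hpu1 i).continuous
  have c2 : ∀ i j, Continuous (pd i (pd j u)) := fun i j => (hppu i j).continuous
  have c3 : ∀ i j k, Continuous (pd i (pd j (pd k u))) := fun i j k => pd_continuous (hppu j k) i
  have c4 : ∀ i, Continuous (pd i U) := fun i => (hpU i).continuous
  have c5 : ∀ i j, Continuous (pd i (pd j U)) := fun i j => pd_continuous (hpU j) i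
  have c6 : Continuous (LL U u) := hLL.continuous
  have c7 : ∀ i, Continuous (pd i (LL U u)) := fun i => pd_continuous hLL i
  have hg := box_green hU1 hu2 hN hLL
  have e0 : ∫ x in QQ n, (LL U u x) ^ 2 * Real.exp (-U x) =
      ∫ x in QQ n, LL U u x * LL U u x * Real.exp (-U x) := by
    congr 1
    funext x
    ring
  have c8 : Continuous (fun x => ∑ i, pd i u x * pd i (LL U u) x) := by fun_prop
  have c9 : Continuous (fun x => ∑ i, gsq (pd i u) x) := by
    unfold gsq
    fun_prop
  have c10 : Continuous (fun x => ∑ i, ∑ j, pd i (pd j U) x * pd i u x * pd j u x) := by fun_prop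
  have hpt : ∀ x, (∑ i, pd i u x * pd i (LL U u) x) * Real.exp (-U x) +
      ((∑ i, gsq (pd i u) x) * Real.exp (-U x) +
      (∑ i, ∑ j, pd i (pd j U) x * pd i u x * pd j u x) * Real.exp (-U x)) =
      ∑ i, ∑ j, pd j (fun x => pd i u x * pd j (pd i u) x * Real.exp (-U x)) x := by
    intro x
    rw [← add_mul, ← add_mul, ← Finset.sum_add_distrib, ← Finset.sum_add_distrib,
      Finset.sum_mul]
    apply Finset.sum_congr rfl
    intro i _
    rw [hdL, gsq, mul_sub, Finset.mul_sum, Finset.mul_sum, ← Finset.sum_add_distrib,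
      ← Finset.sum_sub_distrib, ← Finset.sum_add_distrib, Finset.sum_mul]
    apply Finset.sum_congr rfl
    intro j _
    rw [hpd]
    ring
  have i8 : IntegrableOn (fun x => (∑ i, pd i u x * pd i (LL U u) x) * Real.exp (-U x)) (QQ n) :=
    QQ_integrable (c8.mul hcw)
  have i9 : IntegrableOn (fun x => (∑ i, gsq (pd i u) x) * Real.exp (-U x)) (QQ n) :=
    QQ_integrable (c9.mul hcw)
  have i10 : IntegrableOn (fun x => (∑ i, ∑ j, pd i (pd j U) x * pd i u x * pd j u x) *
      Real.exp (-U x)) (QQ n) := QQ_integrable (c10.mul hcw)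
  have i11 : IntegrableOn (fun x => (∑ i, gsq (pd i u) x) * Real.exp (-U x) +
      (∑ i, ∑ j, pd i (pd j U) x * pd i u x * pd j u x) * Real.exp (-U x)) (QQ n) := i9.add i10
  rw [e0, hg, neg_eq_iff_add_eq_zero, ← integral_add i9 i10, ← integral_add i8 i11, ← hs2]
  congr 1
  funext x
  exact hpt x

end Pool.Agent.H84.Unc
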